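import Mathlib

/-!
Signed and fractional latin squares avoiding a sparse list assignment: cube trades.
-/

namespace Pool.Agent.Y388.HG

open Finset

/-- list assignments -/
abbrev LA (n : ℕ) : Type := Fin n → Fin n → Finset (Fin n)

/-- all multiplicities at most `m` -/
def Bdd {n : ℕ} (m : ℕ) (L : LA n) : Prop :=
  (∀ i j, (L i j).card ≤ m) ∧
  (∀ i c, (univ.filter fun j => c ∈ L i j).card ≤ m) ∧
  (∀ j c, (univ.filter fun i => c ∈ L i j).card ≤ m)

section cube

variable {n : ℕ} {R : Type*} [CommRing R]

/-- difference of two indicator functions -/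
def dd (R : Type*) [CommRing R] {n : ℕ} (a a' x : Fin n) : R :=
  (if x = a then 1 else 0) - (if x = a' then 1 else 0)

theorem sum_dd (a a' : Fin n) : ∑ x, dd R a a' x = 0 := by
  simp [dd, Finset.sum_sub_distrib]

/-- `k'` etc. is admissible for the triple `i j k` -/
def Adm (L : LA n) (i j k i' j' k' : Fin n) : Prop :=
  k ∉ L i' j ∧ (k ∉ L i j' ∧ k ∉ L i' j') ∧
    (k' ∉ L i j ∧ k' ∉ L i' j ∧ k' ∉ L i j' ∧ k' ∉ L i' j')

theorem cube_bad {L : LA n} {i j k i' j' k' x y z : Fin n} (hk : k ∈ L i j)
    (h : Adm L i j k i' j' k') (hz : z ∈ L x y) :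
    dd R i i' x * dd R j j' y * dd R k k' z = if x = i ∧ y = j ∧ z = k then 1 else 0 := by
  obtain ⟨h1, ⟨h2, h3⟩, h4, h5, h6, h7⟩ := h
  have hii : i ≠ i' := by rintro rfl; exact h1 hk
  have hjj : j ≠ j' := by rintro rfl; exact h2 hk
  have hkk : k ≠ k' := by rintro rfl; exact h4 hk
  unfold dd
  by_cases hx : x = i
  · subst hx
    by_cases hy : y = j
    · subst hy
      by_cases hz' : z = k
      · subst hz'
        simp [hii, hjj, hkk]
      · by_cases hz2 : z = k'
        · subst hz2
          exact absurd hz h4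
        · simp [hz', hz2]
    · by_cases hy2 : y = j'
      · subst hy2
        by_cases hz' : z = k
        · subst hz'
          exact absurd hz h2
        · by_cases hz2 : z = k'
          · subst hz2
            exact absurd hz h6
          · simp [hz', hz2]
      · simp [hy, hy2]
  · by_cases hx2 : x = i'
    · subst hx2
      by_cases hy : y = j
      · subst hy
        by_cases hz' : z = k
        · subst hz'
          exact absurd hz h1
        · by_cases hz2 : z = k'
          · subst hz2
            exact absurd hz h5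
          · simp [hz', hz2]
      · by_cases hy2 : y = j'
        · subst hy2
          by_cases hz' : z = k
          · subst hz'
            exact absurd hz h3
          · by_cases hz2 : z = k'
            · subst hz2
              exact absurd hz h7
            · simp [hz', hz2]
        · simp [hy, hy2]
    · simp [hx, hx2]

end cube

section counts

variable {n m : ℕ} {L : LA n}

/-- choices of `i'` -/
def II (L : LA n) (j k : Fin n) : Finset (Fin n) := univ.filter fun i' => k ∉ L i' j

/-- choices of `j'` -/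
def JJ (L : LA n) (i k i' : Fin n) : Finset (Fin n) :=
  univ.filter fun j' => k ∉ L i j' ∧ k ∉ L i' j'

/-- choices of `k'` -/
def KK (L : LA n) (i j i' j' : Fin n) : Finset (Fin n) :=
  univ.filter fun k' => k' ∉ L i j ∧ k' ∉ L i' j ∧ k' ∉ L i j' ∧ k' ∉ L i' j'

theorem card_II (hL : Bdd m L) (j k : Fin n) : n ≤ (II L j k).card + m := by
  have h1 := Finset.card_filter_add_card_filter_not (s := (univ : Finset (Fin n)))
    (fun i' => k ∈ L i' j)
  have h2 := hL.2.2 j k
  rw [card_univ, Fintype.card_fin] at h1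
  unfold II
  omega

theorem card_JJ (hL : Bdd m L) (i k i' : Fin n) : n ≤ (JJ L i k i').card + 2 * m := by
  have h0 : (univ : Finset (Fin n)) ⊆ JJ L i k i' ∪
      ((univ.filter fun j => k ∈ L i j) ∪ (univ.filter fun j => k ∈ L i' j)) := by
    intro x _
    simp only [JJ, mem_union, mem_filter, mem_univ, true_and]
    tauto
  have h1 := card_le_card h0
  rw [card_univ, Fintype.card_fin] at h1
  have h2 := card_union_le (JJ L i k i')
    ((univ.filter fun j => k ∈ L i j) ∪ (univ.filter fun j => k ∈ L i' j))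
  have h3 := card_union_le (univ.filter fun j => k ∈ L i j) (univ.filter fun j => k ∈ L i' j)
  have h4 := hL.2.1 i k
  have h5 := hL.2.1 i' k
  omega

theorem card_KK (hL : Bdd m L) (i j i' j' : Fin n) : n ≤ (KK L i j i' j').card + 4 * m := by
  have h0 : (univ : Finset (Fin n)) ⊆ KK L i j i' j' ∪
      ((L i j ∪ L i' j) ∪ (L i j' ∪ L i' j')) := by
    intro x _
    simp only [KK, mem_union, mem_filter, mem_univ, true_and]
    tauto
  have h1 := card_le_card h0
  rw [card_univ, Fintype.card_fin] at h1
  have h2 := card_union_le (KK L i j i' j') ((L i j ∪ L i' j) ∪ (L i j' ∪ L i' j'))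
  have h3 := card_union_le (L i j ∪ L i' j) (L i j' ∪ L i' j')
  have h4 := card_union_le (L i j) (L i' j)
  have h5 := card_union_le (L i j') (L i' j')
  have h6 := hL.1 i j
  have h7 := hL.1 i' j
  have h8 := hL.1 i j'
  have h9 := hL.1 i' j'
  omega

theorem exists_adm (h4 : 4 * m < n) (hL : Bdd m L) (i j k : Fin n) :
    ∃ i' j' k', Adm L i j k i' j' k' := by
  have h1 : (II L j k).Nonempty := card_pos.1 (by have := card_II hL j k; omega)
  obtain ⟨i', hi⟩ := h1
  have h2 : (JJ L i k i').Nonempty := card_pos.1 (by have := card_JJ hL i k i'; omega)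
  obtain ⟨j', hj⟩ := h2
  have h3 : (KK L i j i' j').Nonempty := card_pos.1 (by have := card_KK hL i j i' j'; omega)
  obtain ⟨k', hk⟩ := h3
  exact ⟨i', j', k', (mem_filter.1 hi).2, (mem_filter.1 hj).2, (mem_filter.1 hk).2⟩

end counts

section signed

variable {n m : ℕ} {L : LA n}

/-- some signed latin square vanishes at all forbidden places -/
def SAv (L : LA n) : Prop :=
  ∃ g : Fin n → Fin n → Fin n → ℤ, (∀ i j, ∑ k, g i j k = 1) ∧ (∀ i k, ∑ j, g i j k = 1) ∧
    (∀ j k, ∑ i, g i j k = 1) ∧ ∀ i j, ∀ k ∈ L i j, g i j k = 0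

theorem signed (h4 : 4 * m < n) (hL : Bdd m L) : SAv L := by
  classical
  have : NeZero n := ⟨by omega⟩
  choose fi fj fk hadm using fun p : Fin n × Fin n => exists_adm h4 hL p.1 p.2 (p.1 + p.2)
  let bad : Finset (Fin n × Fin n) := univ.filter fun p => p.1 + p.2 ∈ L p.1 p.2
  let c : Fin n × Fin n → Fin n → Fin n → Fin n → ℤ := fun p x y z =>
    dd ℤ p.1 (fi p) x * dd ℤ p.2 (fj p) y * dd ℤ (p.1 + p.2) (fk p) z
  refine ⟨fun x y z => (if z = x + y then 1 else 0) - ∑ p ∈ bad, c p x y z, ?_, ?_, ?_, ?_⟩
  · intro x y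
    rw [Finset.sum_sub_distrib, Finset.sum_comm]
    have h1 : ∀ p ∈ bad, ∑ z, c p x y z = 0 := by
      intro p _
      simp only [c]
      rw [← Finset.mul_sum, sum_dd, mul_zero]
    rw [Finset.sum_eq_zero h1]
    simp
  · intro x z
    rw [Finset.sum_sub_distrib, Finset.sum_comm]
    have h1 : ∀ p ∈ bad, ∑ y, c p x y z = 0 := by
      intro p _
      simp only [c]
      rw [← Finset.sum_mul, ← Finset.mul_sum, sum_dd, mul_zero, zero_mul]
    rw [Finset.sum_eq_zero h1]
    have h2 : ∀ y : Fin n, (z = x + y) ↔ (y = z - x) := fun y => by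
      constructor
      · rintro rfl; abel
      · rintro rfl; abel
    simp [h2]
  · intro y z
    rw [Finset.sum_sub_distrib, Finset.sum_comm]
    have h1 : ∀ p ∈ bad, ∑ x, c p x y z = 0 := by
      intro p _
      simp only [c]
      rw [← Finset.sum_mul, ← Finset.sum_mul, sum_dd, zero_mul, zero_mul]
    rw [Finset.sum_eq_zero h1]
    have h2 : ∀ x : Fin n, (z = x + y) ↔ (x = z - y) := fun y => by
      constructor
      · rintro rfl; abel
      · rintro rfl; abel
    simp [h2]
  · intro x y z hz
    have h1 : ∀ p ∈ bad, c p x y z = if p = (x, y) ∧ z = x + y then 1 else 0 := by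
      intro p hp
      simp only [c]
      rw [cube_bad (mem_filter.1 hp).2 (hadm p) hz]
      congr 1
      rw [eq_iff_iff]
      constructor
      · rintro ⟨rfl, rfl, h⟩
        exact ⟨rfl, h⟩
      · rintro ⟨rfl, h⟩
        exact ⟨rfl, rfl, h⟩
    show (if z = x + y then (1 : ℤ) else 0) - ∑ p ∈ bad, c p x y z = 0
    rw [Finset.sum_congr rfl h1]
    by_cases hzz : z = x + y
    · have h2 : (x, y) ∈ bad := mem_filter.2 ⟨mem_univ _, by rw [← hzz]; exact hz⟩
      simp [hzz, h2]
    · simp [hzz]

end signed

end Pool.Agent.Y388.HG
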