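import Pool.Agent.Y388.HG.Cube

/-!
Fractional latin squares avoiding a sparse list assignment, by averaging cube trades.
-/

namespace Pool.Agent.Y388.HG

open Finset

section wt

variable {n : ℕ}

/-- uniform weight on a finite set -/
noncomputable def wt (S : Finset (Fin n)) (x : Fin n) : ℝ := if x ∈ S then (S.card : ℝ)⁻¹ else 0

theorem wt_nonneg (S : Finset (Fin n)) (x : Fin n) : 0 ≤ wt S x := by
  unfold wt
  split_ifs
  · positivity
  · exact le_rfl

theorem sum_wt {S : Finset (Fin n)} (hS : 0 < S.card) : ∑ x, wt S x = 1 := by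
  have h : (S.card : ℝ) ≠ 0 := by positivity
  unfold wt
  rw [Finset.sum_ite_mem, univ_inter, Finset.sum_const, nsmul_eq_mul, mul_inv_cancel₀ h]

theorem wt_le {S : Finset (Fin n)} {c : ℝ} (hc : 0 < c) (hS : c ≤ S.card) (x : Fin n) :
    wt S x ≤ c⁻¹ := by
  unfold wt
  split_ifs
  · exact inv_anti₀ hc hS
  · positivity

end wt

section frac

variable {n m : ℕ} {L : LA n}

/-- the weight of a cube -/
noncomputable def pp (L : LA n) (i j k i' j' k' : Fin n) : ℝ :=
  wt (II L j k) i' * (wt (JJ L i k i') j' * wt (KK L i j i' j') k')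

theorem pp_nonneg (i j k i' j' k' : Fin n) : 0 ≤ pp L i j k i' j' k' :=
  mul_nonneg (wt_nonneg _ _) (mul_nonneg (wt_nonneg _ _) (wt_nonneg _ _))

/-- the averaged cube -/
noncomputable def qq (L : LA n) (i j k x y z : Fin n) : ℝ :=
  ∑ i', ∑ j', ∑ k', pp L i j k i' j' k' * (dd ℝ i i' x * dd ℝ j j' y * dd ℝ k k' z)

theorem qq_z (i j k x y : Fin n) : ∑ z, qq L i j k x y z = 0 := by
  unfold qq
  rw [Finset.sum_comm]
  refine Finset.sum_eq_zero fun i' _ => ?_
  rw [Finset.sum_comm]
  refine Finset.sum_eq_zero fun j' _ => ?_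
  rw [Finset.sum_comm]
  refine Finset.sum_eq_zero fun k' _ => ?_
  rw [← Finset.mul_sum, ← Finset.mul_sum, sum_dd, mul_zero, mul_zero]

theorem qq_y (i j k x z : Fin n) : ∑ y, qq L i j k x y z = 0 := by
  unfold qq
  rw [Finset.sum_comm]
  refine Finset.sum_eq_zero fun i' _ => ?_
  rw [Finset.sum_comm]
  refine Finset.sum_eq_zero fun j' _ => ?_
  rw [Finset.sum_comm]
  refine Finset.sum_eq_zero fun k' _ => ?_
  rw [← Finset.mul_sum, ← Finset.sum_mul, ← Finset.mul_sum, sum_dd, mul_zero, zero_mul, mul_zero]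

theorem qq_x (i j k y z : Fin n) : ∑ x, qq L i j k x y z = 0 := by
  unfold qq
  rw [Finset.sum_comm]
  refine Finset.sum_eq_zero fun i' _ => ?_
  rw [Finset.sum_comm]
  refine Finset.sum_eq_zero fun j' _ => ?_
  rw [Finset.sum_comm]
  refine Finset.sum_eq_zero fun k' _ => ?_
  rw [← Finset.mul_sum, ← Finset.sum_mul, ← Finset.sum_mul, sum_dd, zero_mul, zero_mul, mul_zero]

variable (h4 : 4 * m < n) (hL : Bdd m L)
include h4 hL

theorem pos_II (j k : Fin n) : 0 < (II L j k).card := by
  have := card_II hL j k; omega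

theorem pos_JJ (i k i' : Fin n) : 0 < (JJ L i k i').card := by
  have := card_JJ hL i k i'; omega

theorem pos_KK (i j i' j' : Fin n) : 0 < (KK L i j i' j').card := by
  have := card_KK hL i j i' j'; omega

theorem sum_pp (i j k : Fin n) : ∑ i', ∑ j', ∑ k', pp L i j k i' j' k' = 1 := by
  unfold pp
  have h1 : ∀ i' j', ∑ k', wt (II L j k) i' * (wt (JJ L i k i') j' * wt (KK L i j i' j') k') =
      wt (II L j k) i' * wt (JJ L i k i') j' := by
    intro i' j'
    rw [← Finset.mul_sum, ← Finset.mul_sum, sum_wt (pos_KK h4 hL i j i' j'), mul_one]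
  have h2 : ∀ i', ∑ j', wt (II L j k) i' * wt (JJ L i k i') j' = wt (II L j k) i' := by
    intro i'
    rw [← Finset.mul_sum, sum_wt (pos_JJ h4 hL i k i'), mul_one]
  simp_rw [h1, h2]
  exact sum_wt (pos_II h4 hL j k)

theorem qq_bad {i j k x y z : Fin n} (hk : k ∈ L i j) (hz : z ∈ L x y) :
    qq L i j k x y z = if x = i ∧ y = j ∧ z = k then 1 else 0 := by
  have h1 : ∀ i' j' k', pp L i j k i' j' k' * (dd ℝ i i' x * dd ℝ j j' y * dd ℝ k k' z) =
      pp L i j k i' j' k' * (if x = i ∧ y = j ∧ z = k then 1 else 0) := by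
    intro i' j' k'
    by_cases a1 : i' ∈ II L j k
    · by_cases a2 : j' ∈ JJ L i k i'
      · by_cases a3 : k' ∈ KK L i j i' j'
        · rw [cube_bad hk ⟨(mem_filter.1 a1).2, (mem_filter.1 a2).2, (mem_filter.1 a3).2⟩ hz]
        · simp [pp, wt, a3]
      · simp [pp, wt, a2]
    · simp [pp, wt, a1]
  unfold qq
  simp_rw [h1, ← Finset.sum_mul]
  rw [sum_pp h4 hL, one_mul]

omit h4 hL in
theorem ddd_le {i j k i' j' k' x y z : Fin n} (h : ¬ (x = i ∧ y = j ∧ z = k)) :
    dd ℝ i i' x * dd ℝ j j' y * dd ℝ k k' z ≤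
      (if x = i then 1 else 0) * ((if y = j' then 1 else 0) * (if z = k' then 1 else 0)) +
      (if y = j then 1 else 0) * ((if x = i' then 1 else 0) * (if z = k' then 1 else 0)) +
      (if z = k then 1 else 0) * ((if x = i' then 1 else 0) * (if y = j' then 1 else 0)) := by
  unfold dd
  have hA : (0 : ℝ) ≤ if x = i then 1 else 0 := by split_ifs <;> norm_num
  have hA' : (0 : ℝ) ≤ if x = i' then 1 else 0 := by split_ifs <;> norm_num
  have hB : (0 : ℝ) ≤ if y = j then 1 else 0 := by split_ifs <;> norm_num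
  have hB' : (0 : ℝ) ≤ if y = j' then 1 else 0 := by split_ifs <;> norm_num
  have hC : (0 : ℝ) ≤ if z = k then 1 else 0 := by split_ifs <;> norm_num
  have hC' : (0 : ℝ) ≤ if z = k' then 1 else 0 := by split_ifs <;> norm_num
  have h0 : (if x = i then (1 : ℝ) else 0) * (if y = j then 1 else 0) * (if z = k then 1 else 0)
      = 0 := by
    by_cases h1 : x = i
    · by_cases h2 : y = j
      · have h3 : z ≠ k := fun h3 => h ⟨h1, h2, h3⟩
        simp [h3]
      · simp [h2]
    · simp [h1]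
  generalize (if x = i then (1 : ℝ) else 0) = A at *
  generalize (if x = i' then (1 : ℝ) else 0) = A' at *
  generalize (if y = j then (1 : ℝ) else 0) = B at *
  generalize (if y = j' then (1 : ℝ) else 0) = B' at *
  generalize (if z = k then (1 : ℝ) else 0) = C at *
  generalize (if z = k' then (1 : ℝ) else 0) = C' at *
  have e1 : (A - A') * (B - B') * (C - C') = A * B * C - A * B * C' - A * B' * C - A' * B * C
      + A * B' * C' + A' * B * C' + A' * B' * C - A' * B' * C' := by ring
  rw [e1, h0]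
  have p1 : 0 ≤ A * B * C' := by positivity
  have p2 : 0 ≤ A * B' * C := by positivity
  have p3 : 0 ≤ A' * B * C := by positivity
  have p4 : 0 ≤ A' * B' * C' := by positivity
  nlinarith

/-- the three constants -/
theorem qq_le {i j k x y z : Fin n} (h : ¬ (x = i ∧ y = j ∧ z = k)) :
    qq L i j k x y z ≤
      (if x = i then (((n : ℝ) - 2 * m)⁻¹ * ((n : ℝ) - 4 * m)⁻¹) else 0) +
      (if y = j then (((n : ℝ) - m)⁻¹ * ((n : ℝ) - 4 * m)⁻¹) else 0) +
      (if z = k then (((n : ℝ) - m)⁻¹ * ((n : ℝ) - 2 * m)⁻¹) else 0) := by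
  have hn : (4 : ℝ) * m < n := by exact_mod_cast h4
  have hm : (0 : ℝ) ≤ m := by positivity
  have ha : (0 : ℝ) < (n : ℝ) - m := by linarith
  have hb : (0 : ℝ) < (n : ℝ) - 2 * m := by linarith
  have hc : (0 : ℝ) < (n : ℝ) - 4 * m := by linarith
  have wI : ∀ x, wt (II L j k) x ≤ ((n : ℝ) - m)⁻¹ := fun x => wt_le ha (by
    have h1 : (n : ℝ) ≤ (II L j k).card + m := by exact_mod_cast card_II hL j k
    linarith) x
  have wJ : ∀ i' x, wt (JJ L i k i') x ≤ ((n : ℝ) - 2 * m)⁻¹ := fun i' x => wt_le hb (by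
    have h1 : (n : ℝ) ≤ (JJ L i k i').card + 2 * m := by exact_mod_cast card_JJ hL i k i'
    linarith) x
  have wK : ∀ i' j' x, wt (KK L i j i' j') x ≤ ((n : ℝ) - 4 * m)⁻¹ := fun i' j' x => wt_le hc (by
    have h1 : (n : ℝ) ≤ (KK L i j i' j').card + 4 * m := by exact_mod_cast card_KK hL i j i' j'
    linarith) x
  have s1 : qq L i j k x y z ≤ ∑ i', ∑ j', ∑ k', pp L i j k i' j' k' *
      ((if x = i then 1 else 0) * ((if y = j' then 1 else 0) * (if z = k' then 1 else 0)) +
      (if y = j then 1 else 0) * ((if x = i' then 1 else 0) * (if z = k' then 1 else 0)) +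
      (if z = k then 1 else 0) * ((if x = i' then 1 else 0) * (if y = j' then 1 else 0))) := by
    unfold qq
    refine Finset.sum_le_sum fun i' _ => Finset.sum_le_sum fun j' _ =>
      Finset.sum_le_sum fun k' _ => ?_
    exact mul_le_mul_of_nonneg_left (ddd_le h) (pp_nonneg _ _ _ _ _ _)
  refine s1.trans ?_
  simp_rw [mul_add, Finset.sum_add_distrib]
  have t1 : ∑ i', ∑ j', ∑ k', pp L i j k i' j' k' *
      ((if x = i then 1 else 0) * ((if y = j' then 1 else 0) * (if z = k' then 1 else 0))) ≤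
      (if x = i then (((n : ℝ) - 2 * m)⁻¹ * ((n : ℝ) - 4 * m)⁻¹) else 0) := by
    by_cases hx : x = i
    · rw [if_pos hx]
      simp only [hx, if_true, one_mul]
      have e : ∀ i', ∑ j', ∑ k', pp L i j k i' j' k' *
          ((if y = j' then 1 else 0) * (if z = k' then 1 else 0)) = pp L i j k i' y z := by
        intro i'
        rw [Finset.sum_eq_single y]
        · simp
        · intro b _ hb
          simp [Ne.symm hb]
        · intro h; exact absurd (mem_univ y) h
      simp_rw [e]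
      calc ∑ i', pp L i j k i' y z ≤ ∑ i', wt (II L j k) i' *
            (((n : ℝ) - 2 * m)⁻¹ * ((n : ℝ) - 4 * m)⁻¹) := by
            refine Finset.sum_le_sum fun i' _ => ?_
            exact mul_le_mul_of_nonneg_left (mul_le_mul (wJ _ _) (wK _ _ _) (wt_nonneg _ _)
              (by positivity)) (wt_nonneg _ _)
        _ = _ := by rw [← Finset.sum_mul, sum_wt (pos_II h4 hL j k), one_mul]
    · simp [hx]
  have t2 : ∑ i', ∑ j', ∑ k', pp L i j k i' j' k' *
      ((if y = j then 1 else 0) * ((if x = i' then 1 else 0) * (if z = k' then 1 else 0))) ≤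
      (if y = j then (((n : ℝ) - m)⁻¹ * ((n : ℝ) - 4 * m)⁻¹) else 0) := by
    by_cases hy : y = j
    · rw [if_pos hy]
      simp only [hy, if_true, one_mul]
      have e : ∑ i', ∑ j', ∑ k', pp L i j k i' j' k' *
          ((if x = i' then 1 else 0) * (if z = k' then 1 else 0)) =
          ∑ j', pp L i j k x j' z := by
        rw [Finset.sum_eq_single x]
        · simp
        · intro b _ hb
          simp [Ne.symm hb]
        · intro h; exact absurd (mem_univ x) h
      rw [e]
      calc ∑ j', pp L i j k x j' z ≤ ∑ j', ((n : ℝ) - m)⁻¹ *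
            (wt (JJ L i k x) j' * ((n : ℝ) - 4 * m)⁻¹) := by
            refine Finset.sum_le_sum fun j' _ => ?_
            exact mul_le_mul (wI _) (mul_le_mul_of_nonneg_left (wK _ _ _) (wt_nonneg _ _))
              (mul_nonneg (wt_nonneg _ _) (wt_nonneg _ _)) (by positivity)
        _ = _ := by
            rw [← Finset.mul_sum, ← Finset.sum_mul, sum_wt (pos_JJ h4 hL i k x), one_mul]
    · simp [hy]
  have t3 : ∑ i', ∑ j', ∑ k', pp L i j k i' j' k' *
      ((if z = k then 1 else 0) * ((if x = i' then 1 else 0) * (if y = j' then 1 else 0))) ≤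
      (if z = k then (((n : ℝ) - m)⁻¹ * ((n : ℝ) - 2 * m)⁻¹) else 0) := by
    by_cases hz : z = k
    · rw [if_pos hz]
      simp only [hz, if_true, one_mul]
      have e : ∑ i', ∑ j', ∑ k', pp L i j k i' j' k' *
          ((if x = i' then 1 else 0) * (if y = j' then 1 else 0)) =
          ∑ k', pp L i j k x y k' := by
        rw [Finset.sum_eq_single x]
        · rw [Finset.sum_eq_single y]
          · simp
          · intro b _ hb
            simp [Ne.symm hb]
          · intro h; exact absurd (mem_univ y) h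
        · intro b _ hb
          simp [Ne.symm hb]
        · intro h; exact absurd (mem_univ x) h
      rw [e]
      calc ∑ k', pp L i j k x y k' ≤ ∑ k', ((n : ℝ) - m)⁻¹ *
            (((n : ℝ) - 2 * m)⁻¹ * wt (KK L i j x y) k') := by
            refine Finset.sum_le_sum fun k' _ => ?_
            exact mul_le_mul (wI _) (mul_le_mul_of_nonneg_right (wJ _ _) (wt_nonneg _ _))
              (mul_nonneg (wt_nonneg _ _) (wt_nonneg _ _)) (by positivity)
        _ = _ := by
            rw [← Finset.mul_sum, ← Finset.mul_sum, sum_wt (pos_KK h4 hL i j x y), mul_one]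
    · simp [hz]
  linarith

end frac

section main

variable {n m : ℕ} {L : LA n}

/-- some fractional latin square vanishes at all forbidden places -/
def FAv (L : LA n) : Prop :=
  ∃ g : Fin n → Fin n → Fin n → ℝ, (∀ i j k, 0 ≤ g i j k) ∧ (∀ i j, ∑ k, g i j k = 1) ∧
    (∀ i k, ∑ j, g i j k = 1) ∧ (∀ j k, ∑ i, g i j k = 1) ∧ ∀ i j, ∀ k ∈ L i j, g i j k = 0

theorem count1 (hL : Bdd m L) {c : ℝ} (hc : 0 ≤ c) (x : Fin n) :
    ∑ i, ∑ j, ∑ _k ∈ L i j, (if x = i then c else 0) ≤ n * m * c := by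
  rw [Finset.sum_eq_single x]
  · simp only [if_true]
    calc ∑ j, ∑ k ∈ L x j, c ≤ ∑ _j : Fin n, (m : ℝ) * c := by
          refine Finset.sum_le_sum fun j _ => ?_
          rw [Finset.sum_const, nsmul_eq_mul]
          exact mul_le_mul_of_nonneg_right (by exact_mod_cast hL.1 x j) hc
      _ = _ := by
          rw [Finset.sum_const, card_univ, Fintype.card_fin, nsmul_eq_mul, mul_assoc]
  · intro b _ hb
    simp [Ne.symm hb]
  · intro h; exact absurd (mem_univ x) h

theorem count2 (hL : Bdd m L) {c : ℝ} (hc : 0 ≤ c) (y : Fin n) :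
    ∑ i, ∑ j, ∑ _k ∈ L i j, (if y = j then c else 0) ≤ n * m * c := by
  calc ∑ i, ∑ j, ∑ _k ∈ L i j, (if y = j then c else 0) ≤ ∑ _i : Fin n, (m : ℝ) * c := by
        refine Finset.sum_le_sum fun i _ => ?_
        rw [Finset.sum_eq_single y]
        · simp only [if_true]
          rw [Finset.sum_const, nsmul_eq_mul]
          exact mul_le_mul_of_nonneg_right (by exact_mod_cast hL.1 i y) hc
        · intro b _ hb
          simp [Ne.symm hb]
        · intro h; exact absurd (mem_univ y) h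
    _ = _ := by
        rw [Finset.sum_const, card_univ, Fintype.card_fin, nsmul_eq_mul, mul_assoc]

theorem count3 (hL : Bdd m L) {c : ℝ} (hc : 0 ≤ c) (z : Fin n) :
    ∑ i, ∑ j, ∑ k ∈ L i j, (if z = k then c else 0) ≤ n * m * c := by
  calc ∑ i, ∑ j, ∑ k ∈ L i j, (if z = k then c else 0) ≤ ∑ _i : Fin n, (m : ℝ) * c := by
        refine Finset.sum_le_sum fun i _ => ?_
        have h1 : ∀ j, ∑ k ∈ L i j, (if z = k then c else 0) = if z ∈ L i j then c else 0 := by
          intro j
          rw [Finset.sum_ite_eq]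
        simp_rw [h1]
        rw [← Finset.sum_filter, Finset.sum_const, nsmul_eq_mul]
        exact mul_le_mul_of_nonneg_right (by exact_mod_cast hL.2.1 i z) hc
    _ = _ := by
        rw [Finset.sum_const, card_univ, Fintype.card_fin, nsmul_eq_mul, mul_assoc]

theorem three_inv (N a b c : ℝ) (ha : a ≠ 0) (hb : b ≠ 0) (hc : c ≠ 0) :
    N * (b⁻¹ * c⁻¹) + N * (a⁻¹ * c⁻¹) + N * (a⁻¹ * b⁻¹) = N * (a + b + c) / (a * b * c) := by
  field_simp

theorem frac (h4 : 4 * m < n) (hL : Bdd m L)
    (hnm : (n : ℝ) * m * (3 * n - 7 * m) ≤ (n - m) * (n - 2 * m) * (n - 4 * m)) : FAv L := by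
  have hn : (4 : ℝ) * m < n := by exact_mod_cast h4
  have hm : (0 : ℝ) ≤ m := by positivity
  have hn0 : (0 : ℝ) < n := by linarith
  have ha : (0 : ℝ) < (n : ℝ) - m := by linarith
  have hb : (0 : ℝ) < (n : ℝ) - 2 * m := by linarith
  have hc : (0 : ℝ) < (n : ℝ) - 4 * m := by linarith
  have hone : ∑ _k : Fin n, (n : ℝ)⁻¹ * 1 = 1 := by
    rw [Finset.sum_const, card_univ, Fintype.card_fin, nsmul_eq_mul, mul_one,
      mul_inv_cancel₀ hn0.ne']
  refine ⟨fun x y z => (n : ℝ)⁻¹ * (1 - ∑ i, ∑ j, ∑ k ∈ L i j, qq L i j k x y z),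
    ?_, ?_, ?_, ?_, ?_⟩
  · intro x y z
    refine mul_nonneg (by positivity) ?_
    by_cases hz : z ∈ L x y
    · have h1 : ∀ i j, ∀ k ∈ L i j, qq L i j k x y z = if x = i ∧ y = j ∧ z = k then 1 else 0 :=
        fun i j k hk => qq_bad h4 hL hk hz
      have h2 : ∑ i, ∑ j, ∑ k ∈ L i j, qq L i j k x y z = 1 := by
        rw [Finset.sum_congr rfl fun i _ => Finset.sum_congr rfl fun j _ =>
          Finset.sum_congr rfl fun k hk => h1 i j k hk]
        rw [Finset.sum_eq_single x, Finset.sum_eq_single y, Finset.sum_eq_single z]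
        · simp
        · intro b _ hb; simp [Ne.symm hb]
        · intro h; exact absurd hz h
        · intro b _ hb; simp [Ne.symm hb]
        · intro h; exact absurd (mem_univ y) h
        · intro b _ hb; simp [Ne.symm hb]
        · intro h; exact absurd (mem_univ x) h
      rw [h2, sub_self]
    · have h1 : ∀ i j, ∀ k ∈ L i j, qq L i j k x y z ≤
          (if x = i then (((n : ℝ) - 2 * m)⁻¹ * ((n : ℝ) - 4 * m)⁻¹) else 0) +
          (if y = j then (((n : ℝ) - m)⁻¹ * ((n : ℝ) - 4 * m)⁻¹) else 0) +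
          (if z = k then (((n : ℝ) - m)⁻¹ * ((n : ℝ) - 2 * m)⁻¹) else 0) := by
        intro i j k hk
        refine qq_le h4 hL ?_
        rintro ⟨rfl, rfl, rfl⟩
        exact hz hk
      have h2 : ∑ i, ∑ j, ∑ k ∈ L i j, qq L i j k x y z ≤
          n * m * (((n : ℝ) - 2 * m)⁻¹ * ((n : ℝ) - 4 * m)⁻¹) +
          n * m * (((n : ℝ) - m)⁻¹ * ((n : ℝ) - 4 * m)⁻¹) +
          n * m * (((n : ℝ) - m)⁻¹ * ((n : ℝ) - 2 * m)⁻¹) := by
        refine (Finset.sum_le_sum fun i _ => Finset.sum_le_sum fun j _ =>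
          Finset.sum_le_sum fun k hk => h1 i j k hk).trans ?_
        simp_rw [Finset.sum_add_distrib]
        exact add_le_add (add_le_add (count1 hL (by positivity) x)
          (count2 hL (by positivity) y)) (count3 hL (by positivity) z)
      have h3 : n * m * (((n : ℝ) - 2 * m)⁻¹ * ((n : ℝ) - 4 * m)⁻¹) +
          n * m * (((n : ℝ) - m)⁻¹ * ((n : ℝ) - 4 * m)⁻¹) +
          n * m * (((n : ℝ) - m)⁻¹ * ((n : ℝ) - 2 * m)⁻¹) =
          (n : ℝ) * m * (3 * n - 7 * m) / ((n - m) * (n - 2 * m) * (n - 4 * m)) := by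
        have e : (3 * (n : ℝ) - 7 * m) = (n - m) + (n - 2 * m) + (n - 4 * m) := by ring
        rw [e]
        exact three_inv _ _ _ _ ha.ne' hb.ne' hc.ne'
      have h4' : (n : ℝ) * m * (3 * n - 7 * m) / ((n - m) * (n - 2 * m) * (n - 4 * m)) ≤ 1 := by
        rw [div_le_one (by positivity)]
        exact hnm
      linarith
  · intro x y
    rw [← Finset.mul_sum, Finset.sum_sub_distrib]
    have h1 : ∑ z, ∑ i, ∑ j, ∑ k ∈ L i j, qq L i j k x y z = 0 := by
      rw [Finset.sum_comm]
      refine Finset.sum_eq_zero fun i _ => ?_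
      rw [Finset.sum_comm]
      refine Finset.sum_eq_zero fun j _ => ?_
      rw [Finset.sum_comm]
      exact Finset.sum_eq_zero fun k _ => qq_z _ _ _ _ _
    rw [h1, sub_zero, Finset.mul_sum]
    exact hone
  · intro x z
    rw [← Finset.mul_sum, Finset.sum_sub_distrib]
    have h1 : ∑ y, ∑ i, ∑ j, ∑ k ∈ L i j, qq L i j k x y z = 0 := by
      rw [Finset.sum_comm]
      refine Finset.sum_eq_zero fun i _ => ?_
      rw [Finset.sum_comm]
      refine Finset.sum_eq_zero fun j _ => ?_
      rw [Finset.sum_comm]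
      exact Finset.sum_eq_zero fun k _ => qq_y _ _ _ _ _
    rw [h1, sub_zero, Finset.mul_sum]
    exact hone
  · intro y z
    rw [← Finset.mul_sum, Finset.sum_sub_distrib]
    have h1 : ∑ x, ∑ i, ∑ j, ∑ k ∈ L i j, qq L i j k x y z = 0 := by
      rw [Finset.sum_comm]
      refine Finset.sum_eq_zero fun i _ => ?_
      rw [Finset.sum_comm]
      refine Finset.sum_eq_zero fun j _ => ?_
      rw [Finset.sum_comm]
      exact Finset.sum_eq_zero fun k _ => qq_x _ _ _ _ _
    rw [h1, sub_zero, Finset.mul_sum]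
    exact hone
  · intro x y z hz
    have h1 : ∀ i j, ∀ k ∈ L i j, qq L i j k x y z = if x = i ∧ y = j ∧ z = k then 1 else 0 :=
      fun i j k hk => qq_bad h4 hL hk hz
    have h2 : ∑ i, ∑ j, ∑ k ∈ L i j, qq L i j k x y z = 1 := by
      rw [Finset.sum_congr rfl fun i _ => Finset.sum_congr rfl fun j _ =>
        Finset.sum_congr rfl fun k hk => h1 i j k hk]
      rw [Finset.sum_eq_single x, Finset.sum_eq_single y, Finset.sum_eq_single z]
      · simp
      · intro b _ hb; simp [Ne.symm hb]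
      · intro h; exact absurd hz h
      · intro b _ hb; simp [Ne.symm hb]
      · intro h; exact absurd (mem_univ y) h
      · intro b _ hb; simp [Ne.symm hb]
      · intro h; exact absurd (mem_univ x) h
    show (n : ℝ)⁻¹ * (1 - ∑ i, ∑ j, ∑ k ∈ L i j, qq L i j k x y z) = 0
    rw [h2, sub_self, mul_zero]

/-- `80 m ≤ 11 n` is enough. -/
theorem frac80 (hn : 1 ≤ n) (h : 80 * m ≤ 11 * n) (hL : Bdd m L) : FAv L := by
  refine frac (by omega) hL ?_
  have h1 : (80 : ℝ) * m ≤ 11 * n := by exact_mod_cast h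
  have h2 : (0 : ℝ) ≤ m := by positivity
  have h3 : (1 : ℝ) ≤ n := by exact_mod_cast hn
  generalize (m : ℝ) = M at *
  generalize (n : ℝ) = N at *
  have hN : 0 ≤ N := by linarith
  have hd : 0 ≤ 11 * N - 80 * M := by linarith
  have key : 0 ≤ N ^ 3 - 10 * M * N ^ 2 + 21 * M ^ 2 * N - 8 * M ^ 3 := by
    nlinarith [mul_nonneg hd (mul_nonneg hN hN), mul_nonneg hd (mul_nonneg h2 hN),
      mul_nonneg hd (mul_nonneg h2 h2), mul_nonneg hd (mul_nonneg hd hN),
      mul_nonneg hd (mul_nonneg hd h2), pow_nonneg hN 3, mul_nonneg (mul_nonneg hd hd) hd]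
  nlinarith

end main

end Pool.Agent.Y388.HG
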