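import Pool.Agent.Y388.HG.Frac

/-!
Fractional latin squares avoiding a sparse list assignment, a better constant: self-correcting
averages of cube trades.
-/

namespace Pool.Agent.Y388.HG

open Finset

/-- a linear system with a small nonnegative matrix -/
theorem fixed {S : Type*} [Fintype S] (K : S → S → ℝ) (hK : ∀ t s, 0 ≤ K t s) {θ : ℝ}
    (h0 : 0 ≤ θ) (h1 : θ < 1) (hs : ∀ s, ∑ t, K t s ≤ θ) :
    ∃ y : S → ℝ, (∀ s, 0 ≤ y s ∧ y s ≤ 1) ∧ ∀ s, y s = 1 - ∑ t, y t * K t s := by
  let F : (S → ℝ) → (S → ℝ) := fun y s => 1 - ∑ t, y t * K t s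
  have hF : ContractingWith ⟨θ, h0⟩ F := by
    refine ⟨by exact_mod_cast h1, LipschitzWith.of_dist_le_mul fun x y => ?_⟩
    rw [dist_pi_le_iff (by positivity)]
    intro s
    have e1 : F x s - F y s = ∑ t, (y t - x t) * K t s := by
      simp only [F, sub_mul, Finset.sum_sub_distrib]
      ring
    rw [Real.dist_eq, e1]
    calc |∑ t, (y t - x t) * K t s| ≤ ∑ t, |(y t - x t) * K t s| :=
          Finset.abs_sum_le_sum_abs _ _
      _ ≤ ∑ t, dist x y * K t s := by
          refine Finset.sum_le_sum fun t _ => ?_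
          rw [abs_mul, abs_of_nonneg (hK t s), abs_sub_comm]
          refine mul_le_mul_of_nonneg_right ?_ (hK t s)
          rw [← Real.dist_eq]
          exact dist_le_pi_dist x y t
      _ = dist x y * ∑ t, K t s := by rw [Finset.mul_sum]
      _ ≤ dist x y * θ := mul_le_mul_of_nonneg_left (hs s) dist_nonneg
      _ = θ * dist x y := mul_comm _ _
  let C : Set (S → ℝ) := Set.pi Set.univ fun _ => Set.Icc (0 : ℝ) 1
  have hC : IsComplete C := (isClosed_set_pi fun _ _ => isClosed_Icc).isComplete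
  have hmap : Set.MapsTo F C C := by
    intro y hy s _
    have hy' : ∀ t, 0 ≤ y t ∧ y t ≤ 1 := fun t => hy t trivial
    have b1 : 0 ≤ ∑ t, y t * K t s :=
      Finset.sum_nonneg fun t _ => mul_nonneg (hy' t).1 (hK t s)
    have b2 : ∑ t, y t * K t s ≤ ∑ t, K t s :=
      Finset.sum_le_sum fun t _ => mul_le_of_le_one_left (hK t s) (hy' t).2
    have b3 := hs s
    constructor <;> simp only [F] <;> linarith
  obtain ⟨y, hy, hfix, -⟩ := ContractingWith.exists_fixedPoint' hC hmap (hF.restrict hmap)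
    (x := fun _ => 0) (fun s _ => ⟨le_rfl, zero_le_one⟩) (edist_ne_top _ _)
  refine ⟨y, fun s => hy s trivial, fun s => ?_⟩
  exact (congrFun hfix s).symm

section frac2

variable {n m : ℕ} {L : LA n}

/-- choices of `j'` -/
def JJ0 (L : LA n) (i k : Fin n) : Finset (Fin n) := univ.filter fun j' => k ∉ L i j'

/-- choices of `k'` -/
def KK1 (L : LA n) (i j i' j' : Fin n) : Finset (Fin n) :=
  univ.filter fun k' => k' ∉ L i j ∧ k' ∉ L i' j'

theorem card_JJ0 (hL : Bdd m L) (i k : Fin n) : n ≤ (JJ0 L i k).card + m := by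
  have h1 := Finset.card_filter_add_card_filter_not (s := (univ : Finset (Fin n)))
    (fun j' => k ∈ L i j')
  have h2 := hL.2.1 i k
  rw [card_univ, Fintype.card_fin] at h1
  unfold JJ0
  omega

theorem card_KK1 (hL : Bdd m L) (i j i' j' : Fin n) : n ≤ (KK1 L i j i' j').card + 2 * m := by
  have h0 : (univ : Finset (Fin n)) ⊆ KK1 L i j i' j' ∪ (L i j ∪ L i' j') := by
    intro x _
    simp only [KK1, mem_union, mem_filter, mem_univ, true_and]
    tauto
  have h1 := card_le_card h0
  rw [card_univ, Fintype.card_fin] at h1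
  have h2 := card_union_le (KK1 L i j i' j') (L i j ∪ L i' j')
  have h3 := card_union_le (L i j) (L i' j')
  have h6 := hL.1 i j
  have h9 := hL.1 i' j'
  omega

/-- the weight of a cube -/
noncomputable def p2 (L : LA n) (i j k i' j' k' : Fin n) : ℝ :=
  wt (II L j k) i' * (wt (JJ0 L i k) j' * wt (KK1 L i j i' j') k')

theorem p2_nonneg (i j k i' j' k' : Fin n) : 0 ≤ p2 L i j k i' j' k' :=
  mul_nonneg (wt_nonneg _ _) (mul_nonneg (wt_nonneg _ _) (wt_nonneg _ _))

/-- the cells of a cube with two primes -/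
noncomputable def ee (i j k i' j' k' x y z : Fin n) : ℝ :=
  (if x = i then 1 else 0) * ((if y = j' then 1 else 0) * (if z = k' then 1 else 0)) +
  (if y = j then 1 else 0) * ((if x = i' then 1 else 0) * (if z = k' then 1 else 0)) +
  (if z = k then 1 else 0) * ((if x = i' then 1 else 0) * (if y = j' then 1 else 0))

theorem ee_nonneg (i j k i' j' k' x y z : Fin n) : 0 ≤ ee i j k i' j' k' x y z := by
  unfold ee
  have h : ∀ a b : Fin n, (0 : ℝ) ≤ if a = b then 1 else 0 := by
    intro a b; split_ifs <;> norm_num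
  have h1 := h x i
  have h2 := h x i'
  have h3 := h y j
  have h4 := h y j'
  have h5 := h z k
  have h6 := h z k'
  positivity

/-- the averaged cube -/
noncomputable def q2 (L : LA n) (i j k x y z : Fin n) : ℝ :=
  ∑ i', ∑ j', ∑ k', p2 L i j k i' j' k' * (dd ℝ i i' x * dd ℝ j j' y * dd ℝ k k' z)

/-- the average number of cells with two primes -/
noncomputable def uu (L : LA n) (i j k x y z : Fin n) : ℝ :=
  ∑ i', ∑ j', ∑ k', p2 L i j k i' j' k' * ee i j k i' j' k' x y z

theorem uu_nonneg (i j k x y z : Fin n) : 0 ≤ uu L i j k x y z :=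
  Finset.sum_nonneg fun _ _ => Finset.sum_nonneg fun _ _ => Finset.sum_nonneg fun _ _ =>
    mul_nonneg (p2_nonneg _ _ _ _ _ _) (ee_nonneg _ _ _ _ _ _ _ _ _)

theorem q2_z (i j k x y : Fin n) : ∑ z, q2 L i j k x y z = 0 := by
  unfold q2
  rw [Finset.sum_comm]
  refine Finset.sum_eq_zero fun i' _ => ?_
  rw [Finset.sum_comm]
  refine Finset.sum_eq_zero fun j' _ => ?_
  rw [Finset.sum_comm]
  refine Finset.sum_eq_zero fun k' _ => ?_
  rw [← Finset.mul_sum, ← Finset.mul_sum, sum_dd, mul_zero, mul_zero]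

theorem q2_y (i j k x z : Fin n) : ∑ y, q2 L i j k x y z = 0 := by
  unfold q2
  rw [Finset.sum_comm]
  refine Finset.sum_eq_zero fun i' _ => ?_
  rw [Finset.sum_comm]
  refine Finset.sum_eq_zero fun j' _ => ?_
  rw [Finset.sum_comm]
  refine Finset.sum_eq_zero fun k' _ => ?_
  rw [← Finset.mul_sum, ← Finset.sum_mul, ← Finset.mul_sum, sum_dd, mul_zero, zero_mul, mul_zero]

theorem q2_x (i j k y z : Fin n) : ∑ x, q2 L i j k x y z = 0 := by
  unfold q2
  rw [Finset.sum_comm]
  refine Finset.sum_eq_zero fun i' _ => ?_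
  rw [Finset.sum_comm]
  refine Finset.sum_eq_zero fun j' _ => ?_
  rw [Finset.sum_comm]
  refine Finset.sum_eq_zero fun k' _ => ?_
  rw [← Finset.mul_sum, ← Finset.sum_mul, ← Finset.sum_mul, sum_dd, zero_mul, zero_mul, mul_zero]

theorem cube2 {i j k i' j' k' x y z : Fin n} (hk : k ∈ L i j) (h1 : k ∉ L i' j)
    (h2 : k ∉ L i j') (h3 : k' ∉ L i j) (h4 : k' ∉ L i' j') (hz : z ∈ L x y) :
    dd ℝ i i' x * dd ℝ j j' y * dd ℝ k k' z =
      (if x = i ∧ y = j ∧ z = k then 1 else 0) + ee i j k i' j' k' x y z := by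
  have hii : i ≠ i' := by rintro rfl; exact h1 hk
  have hjj : j ≠ j' := by rintro rfl; exact h2 hk
  have hkk : k ≠ k' := by rintro rfl; exact h3 hk
  unfold dd ee
  by_cases hx : x = i
  · subst hx
    by_cases hy : y = j
    · subst hy
      by_cases hz' : z = k
      · subst hz'
        simp [hii, hjj, hkk]
      · by_cases hz2 : z = k'
        · subst hz2
          exact absurd hz h3
        · simp [hz', hz2]
    · by_cases hy2 : y = j'
      · subst hy2
        by_cases hz' : z = k
        · subst hz'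
          exact absurd hz h2
        · by_cases hz2 : z = k' <;> simp [hz', hii, hy, hz2, Ne.symm hkk]
      · simp [hy, hy2]
  · by_cases hx2 : x = i'
    · subst hx2
      by_cases hy : y = j
      · subst hy
        by_cases hz' : z = k
        · subst hz'
          exact absurd hz h1
        · by_cases hz2 : z = k' <;> simp [hz', hjj, hx, hz2, Ne.symm hkk]
      · by_cases hy2 : y = j'
        · subst hy2
          by_cases hz' : z = k
          · subst hz'
            simp [hkk, hx, hy]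
          · by_cases hz2 : z = k'
            · subst hz2
              exact absurd hz h4
            · simp [hz', hz2]
        · simp [hy, hy2]
    · simp [hx, hx2]

variable (h4 : 4 * m < n) (hL : Bdd m L)
include h4 hL

theorem sum_p2 (i j k : Fin n) : ∑ i', ∑ j', ∑ k', p2 L i j k i' j' k' = 1 := by
  have c1 : 0 < (JJ0 L i k).card := by have := card_JJ0 hL i k; omega
  have c2 : ∀ i' j', 0 < (KK1 L i j i' j').card := by
    intro i' j'; have := card_KK1 hL i j i' j'; omega
  unfold p2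
  have h1 : ∀ i' j', ∑ k', wt (II L j k) i' * (wt (JJ0 L i k) j' * wt (KK1 L i j i' j') k') =
      wt (II L j k) i' * wt (JJ0 L i k) j' := by
    intro i' j'
    rw [← Finset.mul_sum, ← Finset.mul_sum, sum_wt (c2 i' j'), mul_one]
  have h2 : ∀ i', ∑ j', wt (II L j k) i' * wt (JJ0 L i k) j' = wt (II L j k) i' := by
    intro i'
    rw [← Finset.mul_sum, sum_wt c1, mul_one]
  simp_rw [h1, h2]
  exact sum_wt (pos_II h4 hL j k)

theorem q2_bad {i j k x y z : Fin n} (hk : k ∈ L i j) (hz : z ∈ L x y) :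
    q2 L i j k x y z = (if x = i ∧ y = j ∧ z = k then 1 else 0) + uu L i j k x y z := by
  have h1 : ∀ i' j' k', p2 L i j k i' j' k' * (dd ℝ i i' x * dd ℝ j j' y * dd ℝ k k' z) =
      p2 L i j k i' j' k' * (if x = i ∧ y = j ∧ z = k then 1 else 0) +
        p2 L i j k i' j' k' * ee i j k i' j' k' x y z := by
    intro i' j' k'
    by_cases a1 : i' ∈ II L j k
    · by_cases a2 : j' ∈ JJ0 L i k
      · by_cases a3 : k' ∈ KK1 L i j i' j'
        · rw [cube2 hk (mem_filter.1 a1).2 (mem_filter.1 a2).2 (mem_filter.1 a3).2.1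
            (mem_filter.1 a3).2.2 hz, mul_add]
        · simp [p2, wt, a3]
      · simp [p2, wt, a2]
    · simp [p2, wt, a1]
  unfold q2 uu
  simp_rw [h1, Finset.sum_add_distrib, ← Finset.sum_mul]
  rw [sum_p2 h4 hL, one_mul]

omit h4 hL in
theorem q2_le {i j k x y z : Fin n} (h : ¬ (x = i ∧ y = j ∧ z = k)) :
    q2 L i j k x y z ≤ uu L i j k x y z := by
  unfold q2 uu
  refine Finset.sum_le_sum fun i' _ => Finset.sum_le_sum fun j' _ =>
    Finset.sum_le_sum fun k' _ => ?_
  exact mul_le_mul_of_nonneg_left (ddd_le h) (p2_nonneg _ _ _ _ _ _)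

/-- the three constants -/
theorem uu_le (i j k x y z : Fin n) :
    uu L i j k x y z ≤
      (if x = i then (((n : ℝ) - m)⁻¹ * ((n : ℝ) - 2 * m)⁻¹) else 0) +
      (if y = j then (((n : ℝ) - m)⁻¹ * ((n : ℝ) - 2 * m)⁻¹) else 0) +
      (if z = k then (((n : ℝ) - m)⁻¹ * ((n : ℝ) - m)⁻¹) else 0) := by
  have hn : (4 : ℝ) * m < n := by exact_mod_cast h4
  have hm : (0 : ℝ) ≤ m := by positivity
  have ha : (0 : ℝ) < (n : ℝ) - m := by linarith
  have hb : (0 : ℝ) < (n : ℝ) - 2 * m := by linarith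
  have c1 : 0 < (JJ0 L i k).card := by have := card_JJ0 hL i k; omega
  have c2 : ∀ i' j', 0 < (KK1 L i j i' j').card := by
    intro i' j'; have := card_KK1 hL i j i' j'; omega
  have wI : ∀ x, wt (II L j k) x ≤ ((n : ℝ) - m)⁻¹ := fun x => wt_le ha (by
    have h1 : (n : ℝ) ≤ (II L j k).card + m := by exact_mod_cast card_II hL j k
    linarith) x
  have wJ : ∀ x, wt (JJ0 L i k) x ≤ ((n : ℝ) - m)⁻¹ := fun x => wt_le ha (by
    have h1 : (n : ℝ) ≤ (JJ0 L i k).card + m := by exact_mod_cast card_JJ0 hL i k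
    linarith) x
  have wK : ∀ i' j' x, wt (KK1 L i j i' j') x ≤ ((n : ℝ) - 2 * m)⁻¹ := fun i' j' x => wt_le hb (by
    have h1 : (n : ℝ) ≤ (KK1 L i j i' j').card + 2 * m := by exact_mod_cast card_KK1 hL i j i' j'
    linarith) x
  unfold uu ee
  simp_rw [mul_add, Finset.sum_add_distrib]
  have t1 : ∑ i', ∑ j', ∑ k', p2 L i j k i' j' k' *
      ((if x = i then 1 else 0) * ((if y = j' then 1 else 0) * (if z = k' then 1 else 0))) ≤
      (if x = i then (((n : ℝ) - m)⁻¹ * ((n : ℝ) - 2 * m)⁻¹) else 0) := by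
    by_cases hx : x = i
    · rw [if_pos hx]
      simp only [hx, if_true, one_mul]
      have e : ∀ i', ∑ j', ∑ k', p2 L i j k i' j' k' *
          ((if y = j' then 1 else 0) * (if z = k' then 1 else 0)) = p2 L i j k i' y z := by
        intro i'
        rw [Finset.sum_eq_single y]
        · simp
        · intro b _ hb
          simp [Ne.symm hb]
        · intro h; exact absurd (mem_univ y) h
      simp_rw [e]
      calc ∑ i', p2 L i j k i' y z ≤ ∑ i', wt (II L j k) i' *
            (((n : ℝ) - m)⁻¹ * ((n : ℝ) - 2 * m)⁻¹) := by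
            refine Finset.sum_le_sum fun i' _ => ?_
            exact mul_le_mul_of_nonneg_left (mul_le_mul (wJ _) (wK _ _ _) (wt_nonneg _ _)
              (by positivity)) (wt_nonneg _ _)
        _ = _ := by rw [← Finset.sum_mul, sum_wt (pos_II h4 hL j k), one_mul]
    · simp [hx]
  have t2 : ∑ i', ∑ j', ∑ k', p2 L i j k i' j' k' *
      ((if y = j then 1 else 0) * ((if x = i' then 1 else 0) * (if z = k' then 1 else 0))) ≤
      (if y = j then (((n : ℝ) - m)⁻¹ * ((n : ℝ) - 2 * m)⁻¹) else 0) := by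
    by_cases hy : y = j
    · rw [if_pos hy]
      simp only [hy, if_true, one_mul]
      have e : ∑ i', ∑ j', ∑ k', p2 L i j k i' j' k' *
          ((if x = i' then 1 else 0) * (if z = k' then 1 else 0)) =
          ∑ j', p2 L i j k x j' z := by
        rw [Finset.sum_eq_single x]
        · simp
        · intro b _ hb
          simp [Ne.symm hb]
        · intro h; exact absurd (mem_univ x) h
      rw [e]
      calc ∑ j', p2 L i j k x j' z ≤ ∑ j', ((n : ℝ) - m)⁻¹ *
            (wt (JJ0 L i k) j' * ((n : ℝ) - 2 * m)⁻¹) := by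
            refine Finset.sum_le_sum fun j' _ => ?_
            exact mul_le_mul (wI _) (mul_le_mul_of_nonneg_left (wK _ _ _) (wt_nonneg _ _))
              (mul_nonneg (wt_nonneg _ _) (wt_nonneg _ _)) (by positivity)
        _ = _ := by
            rw [← Finset.mul_sum, ← Finset.sum_mul, sum_wt c1, one_mul]
    · simp [hy]
  have t3 : ∑ i', ∑ j', ∑ k', p2 L i j k i' j' k' *
      ((if z = k then 1 else 0) * ((if x = i' then 1 else 0) * (if y = j' then 1 else 0))) ≤
      (if z = k then (((n : ℝ) - m)⁻¹ * ((n : ℝ) - m)⁻¹) else 0) := by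
    by_cases hz : z = k
    · rw [if_pos hz]
      simp only [hz, if_true, one_mul]
      have e : ∑ i', ∑ j', ∑ k', p2 L i j k i' j' k' *
          ((if x = i' then 1 else 0) * (if y = j' then 1 else 0)) =
          ∑ k', p2 L i j k x y k' := by
        rw [Finset.sum_eq_single x]
        · rw [Finset.sum_eq_single y]
          · simp
          · intro b _ hb
            simp [Ne.symm hb]
          · intro h; exact absurd (mem_univ y) h
        · intro b _ hb
          simp [Ne.symm hb]
        · intro h; exact absurd (mem_univ x) h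
      rw [e]
      calc ∑ k', p2 L i j k x y k' ≤ ∑ k', ((n : ℝ) - m)⁻¹ *
            (((n : ℝ) - m)⁻¹ * wt (KK1 L i j x y) k') := by
            refine Finset.sum_le_sum fun k' _ => ?_
            exact mul_le_mul (wI _) (mul_le_mul_of_nonneg_right (wJ _) (wt_nonneg _ _))
              (mul_nonneg (wt_nonneg _ _) (wt_nonneg _ _)) (by positivity)
        _ = _ := by
            rw [← Finset.mul_sum, ← Finset.mul_sum, sum_wt (c2 x y), mul_one]
    · simp [hz]
  linarith

end frac2

section main2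

variable {n m : ℕ} {L : LA n}

theorem sum_if (f : Fin n → Fin n → Fin n → ℝ) :
    ∑ t : Fin n × Fin n × Fin n, (if t.2.2 ∈ L t.1 t.2.1 then f t.1 t.2.1 t.2.2 else 0) =
      ∑ i, ∑ j, ∑ k ∈ L i j, f i j k := by
  rw [Fintype.sum_prod_type]
  refine Finset.sum_congr rfl fun i _ => ?_
  rw [Fintype.sum_prod_type]
  refine Finset.sum_congr rfl fun j _ => ?_
  simp only
  rw [Finset.sum_ite_mem, univ_inter]

theorem frac2 (h4 : 4 * m < n) (hL : Bdd m L)
    (hnm : (n : ℝ) * m * (3 * n - 4 * m) < (n - m) * (n - m) * (n - 2 * m)) : FAv L := by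
  classical
  have hn : (4 : ℝ) * m < n := by exact_mod_cast h4
  have hm : (0 : ℝ) ≤ m := by positivity
  have hn0 : (0 : ℝ) < n := by linarith
  have ha : (0 : ℝ) < (n : ℝ) - m := by linarith
  have hb : (0 : ℝ) < (n : ℝ) - 2 * m := by linarith
  have hone : ∑ _k : Fin n, (n : ℝ)⁻¹ * 1 = 1 := by
    rw [Finset.sum_const, card_univ, Fintype.card_fin, nsmul_eq_mul, mul_one,
      mul_inv_cancel₀ hn0.ne']
  let K : Fin n × Fin n × Fin n → Fin n × Fin n × Fin n → ℝ := fun t s =>
    if t.2.2 ∈ L t.1 t.2.1 then uu L t.1 t.2.1 t.2.2 s.1 s.2.1 s.2.2 else 0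
  let Q : Fin n × Fin n × Fin n → Fin n → Fin n → Fin n → ℝ := fun t x y z =>
    if t.2.2 ∈ L t.1 t.2.1 then q2 L t.1 t.2.1 t.2.2 x y z else 0
  let θ : ℝ := (n : ℝ) * m * (3 * n - 4 * m) / ((n - m) * (n - m) * (n - 2 * m))
  have hθ0 : 0 ≤ θ := by
    have : (0 : ℝ) ≤ 3 * n - 4 * m := by linarith
    simp only [θ]
    positivity
  have hθ1 : θ < 1 := by
    simp only [θ]
    rw [div_lt_one (by positivity)]
    exact hnm
  have hK0 : ∀ t s, 0 ≤ K t s := by
    intro t s
    simp only [K]
    split_ifs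
    · exact uu_nonneg _ _ _ _ _ _
    · exact le_rfl
  have hKs : ∀ s, ∑ t, K t s ≤ θ := by
    intro s
    simp only [K]
    rw [sum_if (L := L) (fun i j k => uu L i j k s.1 s.2.1 s.2.2)]
    have h2 : ∑ i, ∑ j, ∑ k ∈ L i j, uu L i j k s.1 s.2.1 s.2.2 ≤
        n * m * (((n : ℝ) - m)⁻¹ * ((n : ℝ) - 2 * m)⁻¹) +
        n * m * (((n : ℝ) - m)⁻¹ * ((n : ℝ) - 2 * m)⁻¹) +
        n * m * (((n : ℝ) - m)⁻¹ * ((n : ℝ) - m)⁻¹) := by
      refine (Finset.sum_le_sum fun i _ => Finset.sum_le_sum fun j _ =>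
        Finset.sum_le_sum fun k _ => uu_le h4 hL i j k s.1 s.2.1 s.2.2).trans ?_
      simp_rw [Finset.sum_add_distrib]
      exact add_le_add (add_le_add (count1 hL (by positivity) s.1)
        (count2 hL (by positivity) s.2.1)) (count3 hL (by positivity) s.2.2)
    have e : (3 * (n : ℝ) - 4 * m) = (n - m) + (n - m) + (n - 2 * m) := by ring
    have h3 := three_inv ((n : ℝ) * m) _ _ _ ha.ne' ha.ne' hb.ne'
    simp only [θ]
    rw [e, ← h3]
    exact h2
  obtain ⟨w, hw, hwe⟩ := fixed K hK0 hθ0 hθ1 hKs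
  have hbad : ∀ x y z, z ∈ L x y → ∑ t, w t * Q t x y z = 1 := by
    intro x y z hz
    have e1 : ∀ t, w t * Q t x y z = w t * (if t = (x, y, z) then 1 else 0) +
        w t * K t (x, y, z) := by
      intro t
      rw [← mul_add]
      congr 1
      simp only [Q, K]
      by_cases ht : t.2.2 ∈ L t.1 t.2.1
      · rw [if_pos ht, if_pos ht, q2_bad h4 hL ht hz]
        congr 1
        congr 1
        rw [eq_iff_iff]
        constructor
        · rintro ⟨rfl, rfl, rfl⟩
          rfl
        · rintro rfl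
          exact ⟨rfl, rfl, rfl⟩
      · rw [if_neg ht, if_neg ht, add_zero, if_neg]
        rintro rfl
        exact ht hz
    simp_rw [e1, Finset.sum_add_distrib]
    have e2 : ∑ t, w t * (if t = (x, y, z) then (1 : ℝ) else 0) = w (x, y, z) := by simp
    rw [e2]
    have := hwe (x, y, z)
    linarith
  have hgood : ∀ x y z, z ∉ L x y → ∑ t, w t * Q t x y z ≤ 1 := by
    intro x y z hz
    have e1 : ∀ t, w t * Q t x y z ≤ K t (x, y, z) := by
      intro t
      have e2 : Q t x y z ≤ K t (x, y, z) := by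
        simp only [Q, K]
        by_cases ht : t.2.2 ∈ L t.1 t.2.1
        · rw [if_pos ht, if_pos ht]
          refine q2_le ?_
          rintro ⟨rfl, rfl, rfl⟩
          exact hz ht
        · rw [if_neg ht, if_neg ht]
      calc w t * Q t x y z ≤ w t * K t (x, y, z) := mul_le_mul_of_nonneg_left e2 (hw t).1
        _ ≤ K t (x, y, z) := mul_le_of_le_one_left (hK0 _ _) (hw t).2
    calc ∑ t, w t * Q t x y z ≤ ∑ t, K t (x, y, z) := Finset.sum_le_sum fun t _ => e1 t
      _ ≤ θ := hKs _
      _ ≤ 1 := hθ1.le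
  refine ⟨fun x y z => (n : ℝ)⁻¹ * (1 - ∑ t, w t * Q t x y z), ?_, ?_, ?_, ?_, ?_⟩
  · intro x y z
    refine mul_nonneg (by positivity) ?_
    by_cases hz : z ∈ L x y
    · rw [hbad x y z hz, sub_self]
    · linarith [hgood x y z hz]
  · intro x y
    rw [← Finset.mul_sum, Finset.sum_sub_distrib]
    have h1 : ∑ z, ∑ t, w t * Q t x y z = 0 := by
      rw [Finset.sum_comm]
      refine Finset.sum_eq_zero fun t _ => ?_
      rw [← Finset.mul_sum]
      simp only [Q]
      split_ifs
      · rw [q2_z, mul_zero]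
      · simp
    rw [h1, sub_zero, Finset.mul_sum]
    exact hone
  · intro x z
    rw [← Finset.mul_sum, Finset.sum_sub_distrib]
    have h1 : ∑ y, ∑ t, w t * Q t x y z = 0 := by
      rw [Finset.sum_comm]
      refine Finset.sum_eq_zero fun t _ => ?_
      rw [← Finset.mul_sum]
      simp only [Q]
      split_ifs
      · rw [q2_y, mul_zero]
      · simp
    rw [h1, sub_zero, Finset.mul_sum]
    exact hone
  · intro y z
    rw [← Finset.mul_sum, Finset.sum_sub_distrib]
    have h1 : ∑ x, ∑ t, w t * Q t x y z = 0 := by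
      rw [Finset.sum_comm]
      refine Finset.sum_eq_zero fun t _ => ?_
      rw [← Finset.mul_sum]
      simp only [Q]
      split_ifs
      · rw [q2_x, mul_zero]
      · simp
    rw [h1, sub_zero, Finset.mul_sum]
    exact hone
  · intro x y z hz
    show (n : ℝ)⁻¹ * (1 - ∑ t, w t * Q t x y z) = 0
    rw [hbad x y z hz, sub_self, mul_zero]

/-- `11 m ≤ 2 n` is enough. -/
theorem frac11 (hn : 1 ≤ n) (h : 11 * m ≤ 2 * n) (hL : Bdd m L) : FAv L := by
  refine frac2 (by omega) hL ?_
  have h1 : (11 : ℝ) * m ≤ 2 * n := by exact_mod_cast h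
  have h2 : (0 : ℝ) ≤ m := by positivity
  have h3 : (1 : ℝ) ≤ n := by exact_mod_cast hn
  generalize (m : ℝ) = M at *
  generalize (n : ℝ) = N at *
  have hN : 0 < N := by linarith
  have hd : 0 ≤ 2 * N - 11 * M := by linarith
  have h5 : 0 < N ^ 3 := by positivity
  have key : 0 < N ^ 3 - 7 * M * N ^ 2 + 9 * M ^ 2 * N - 2 * M ^ 3 := by
    nlinarith [mul_nonneg hd (mul_nonneg hN.le hN.le), mul_nonneg hd (mul_nonneg h2 hN.le),
      mul_nonneg hd (mul_nonneg h2 h2), mul_nonneg (mul_nonneg hd hd) hN.le,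
      mul_nonneg (mul_nonneg hd hd) h2]
  nlinarith

end main2

end Pool.Agent.Y388.HG
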