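import Pool.Agent.Y388.HG.Cube

/-!
The parity obstruction of the starting result QuarterBound also excludes signed latin squares.
-/

namespace Pool.Agent.Y388.HG

open Finset

/-! ### Types -/

/-- First coordinate of a type. -/
def xb : Fin 4 → ZMod 2 := ![0, 0, 1, 1]

/-- Second coordinate of a type. -/
def yb : Fin 4 → ZMod 2 := ![0, 1, 0, 1]

/-- The addition of types. -/
def op (p q : Fin 4) : Fin 4 :=
  (![![0, 1, 2, 3], ![1, 0, 3, 2], ![2, 3, 0, 1], ![3, 2, 1, 0]] : Fin 4 → Fin 4 → Fin 4) p q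

theorem ind : ∀ p q r : Fin 4,
    (1 + xb p + xb q + xb r) * (1 + yb p + yb q + yb r) = if r = op p q then 1 else 0 := by
  decide

theorem op_left : ∀ p q r : Fin 4, r = op p q ↔ q = op p r := by decide

theorem op_right : ∀ p q r : Fin 4, r = op p q ↔ p = op q r := by decide

theorem exists_types {n : ℕ} (s : Fin 4 → ℕ) (hs : ∑ t, s t = n) :
    ∃ a : Fin n → Fin 4, ∀ t, (univ.filter fun i => a i = t).card = s t := by
  classical
  have hc : Fintype.card (Fin n) = Fintype.card (Σ t : Fin 4, Fin (s t)) := by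
    simp [hs]
  let e : Fin n ≃ (Σ t : Fin 4, Fin (s t)) := Fintype.equivOfCardEq hc
  refine ⟨fun i => (e i).1, fun t => ?_⟩
  have h1 : (univ.filter fun i => (e i).1 = t).card
      = (univ.filter fun z : (Σ t : Fin 4, Fin (s t)) => z.1 = t).card := by
    apply Finset.card_bij (fun i _ => e i)
    · intro i hi; simpa using hi
    · intro i _ j _ h; exact e.injective h
    · intro z hz
      refine ⟨e.symm z, ?_, ?_⟩
      · simpa using hz
      · simp
  rw [h1]
  have h2 : (univ.filter fun z : (Σ t : Fin 4, Fin (s t)) => z.1 = t)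
      = (univ : Finset (Fin (s t))).map ⟨fun x => (⟨t, x⟩ : Σ t : Fin 4, Fin (s t)),
          fun x y h => by simpa using h⟩ := by
    ext ⟨t', x⟩
    simp only [mem_filter, mem_univ, true_and, mem_map]
    constructor
    · rintro rfl
      exact ⟨x, rfl⟩
    · rintro ⟨y, hy⟩
      exact (congrArg Sigma.fst hy).symm
  rw [h2, card_map]
  simp

/-- Sum of a function of the types. -/
theorem sum_types {n : ℕ} {s : Fin 4 → ℕ} {a : Fin n → Fin 4}
    (ha : ∀ t, (univ.filter fun i => a i = t).card = s t) (g : Fin 4 → ZMod 2) :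
    ∑ i, g (a i) = ∑ t, (s t : ZMod 2) * g t := by
  classical
  rw [← Finset.sum_fiberwise (univ : Finset (Fin n)) a (fun i => g (a i))]
  apply Finset.sum_congr rfl
  intro t _
  rw [Finset.sum_congr rfl (g := fun _ => g t)]
  · rw [Finset.sum_const, ha t, nsmul_eq_mul]
  · intro i hi
    rw [(mem_filter.mp hi).2]

/-! ### The invariant -/

section lin

variable {R : Type*} [CommRing R] {n : ℕ}

theorem lin {h : Fin n → Fin n → Fin n → R} (h1 : ∀ i j, ∑ k, h i j k = 1)
    (h2 : ∀ i k, ∑ j, h i j k = 1) (h3 : ∀ j k, ∑ i, h i j k = 1) (A B C : Fin n → Fin n → R) :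
    ∑ i, ∑ j, ∑ k, h i j k * (A i j + B i k + C j k) =
      (∑ i, ∑ j, A i j) + (∑ i, ∑ k, B i k) + ∑ j, ∑ k, C j k := by
  simp_rw [mul_add, Finset.sum_add_distrib]
  congr 1
  · congr 1
    · refine Finset.sum_congr rfl fun i _ => Finset.sum_congr rfl fun j _ => ?_
      rw [← Finset.sum_mul, h1, one_mul]
    · refine Finset.sum_congr rfl fun i _ => ?_
      rw [Finset.sum_comm]
      refine Finset.sum_congr rfl fun j _ => ?_
      rw [← Finset.sum_mul, h2, one_mul]
  · rw [Finset.sum_comm]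
    refine Finset.sum_congr rfl fun j _ => ?_
    rw [Finset.sum_comm]
    refine Finset.sum_congr rfl fun k _ => ?_
    rw [← Finset.sum_mul, h3, one_mul]

theorem invariant {h : Fin n → Fin n → Fin n → R} (h1 : ∀ i j, ∑ k, h i j k = 1)
    (h2 : ∀ i k, ∑ j, h i j k = 1) (h3 : ∀ j k, ∑ i, h i j k = 1)
    (u v w u' v' w' : Fin n → R) :
    ∑ i, ∑ j, ∑ k, h i j k * ((1 + u i + v j + w k) * (1 + u' i + v' j + w' k)) =
      (n : R) * n
      + n * ((∑ i, u i) + (∑ i, u' i) + (∑ i, u i * u' i))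
      + n * ((∑ i, v i) + (∑ i, v' i) + (∑ i, v i * v' i))
      + n * ((∑ i, w i) + (∑ i, w' i) + (∑ i, w i * w' i))
      + (∑ i, u i) * (∑ i, v' i) + (∑ i, v i) * (∑ i, u' i)
      + (∑ i, u i) * (∑ i, w' i) + (∑ i, w i) * (∑ i, u' i)
      + (∑ i, v i) * (∑ i, w' i) + (∑ i, w i) * (∑ i, v' i) := by
  have hexp : ∀ i j k, (1 + u i + v j + w k) * (1 + u' i + v' j + w' k) =
      (1 + (u i + u' i + u i * u' i) + (v j + v' j + v j * v' j) + u i * v' j + u' i * v j)
      + ((w k + w' k + w k * w' k) + u i * w' k + u' i * w k)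
      + (v j * w' k + v' j * w k) := by
    intro i j k; ring
  have e1 : ∑ _i : Fin n, ∑ _j : Fin n, (1 : R) = n * n := by simp
  have e2 : ∀ g : Fin n → R, ∑ i : Fin n, ∑ _j : Fin n, g i = n * ∑ i, g i := by
    intro g; simp [Finset.mul_sum]
  have e3 : ∀ g : Fin n → R, ∑ _i : Fin n, ∑ j : Fin n, g j = n * ∑ i, g i := by
    intro g; simp
  have e5 : ∀ g h : Fin n → R, ∑ i : Fin n, ∑ j : Fin n, g i * h j
      = (∑ i, g i) * ∑ i, h i := by
    intro g h; rw [Finset.sum_mul_sum]
  simp_rw [hexp]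
  rw [lin h1 h2 h3]
  have k1 : ∑ i, ∑ j, (1 + (u i + u' i + u i * u' i) + (v j + v' j + v j * v' j) + u i * v' j
      + u' i * v j) = n * n + n * (∑ i, (u i + u' i + u i * u' i))
        + n * (∑ i, (v i + v' i + v i * v' i)) + (∑ i, u i) * (∑ i, v' i)
        + (∑ i, u' i) * (∑ i, v i) := by
    rw [← e1, ← e2 (fun i => u i + u' i + u i * u' i), ← e3 (fun i => v i + v' i + v i * v' i),
      ← e5 u v', ← e5 u' v]
    simp only [← Finset.sum_add_distrib]
  have k2 : ∑ i, ∑ k, ((w k + w' k + w k * w' k) + u i * w' k + u' i * w k) =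
      n * (∑ i, (w i + w' i + w i * w' i)) + (∑ i, u i) * (∑ i, w' i)
        + (∑ i, u' i) * (∑ i, w i) := by
    rw [← e3 (fun i => w i + w' i + w i * w' i), ← e5 u w', ← e5 u' w]
    simp only [← Finset.sum_add_distrib]
  have k3 : ∑ j, ∑ k, (v j * w' k + v' j * w k) =
      (∑ i, v i) * (∑ i, w' i) + (∑ i, v' i) * (∑ i, w i) := by
    rw [← e5 v w', ← e5 v' w]
    simp only [← Finset.sum_add_distrib]
  rw [k1, k2, k3]
  simp only [Finset.sum_add_distrib]
  ring

end lin

/-- The value of the invariant in terms of the numbers `s t`, `s' t`, `s'' t` of left vertices,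
right vertices and colours of type `t`. -/
def charge (n : ZMod 2) (s s' s'' : Fin 4 → ZMod 2) : ZMod 2 :=
  n * n + n * ((s 2 + s 3) + (s 1 + s 3) + s 3) + n * ((s' 2 + s' 3) + (s' 1 + s' 3) + s' 3)
    + n * ((s'' 2 + s'' 3) + (s'' 1 + s'' 3) + s'' 3)
    + (s 2 + s 3) * (s' 1 + s' 3) + (s' 2 + s' 3) * (s 1 + s 3)
    + (s 2 + s 3) * (s'' 1 + s'' 3) + (s'' 2 + s'' 3) * (s 1 + s 3)
    + (s' 2 + s' 3) * (s'' 1 + s'' 3) + (s'' 2 + s'' 3) * (s' 1 + s' 3)

theorem main {n m : ℕ} (s s' s'' : Fin 4 → ℕ) (hs : ∑ t, s t = n) (hs' : ∑ t, s' t = n)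
    (hs'' : ∑ t, s'' t = n) (hm : ∀ t, s t ≤ m) (hm' : ∀ t, s' t ≤ m) (hm'' : ∀ t, s'' t ≤ m)
    (hch : charge n (fun t => (s t : ZMod 2)) (fun t => (s' t : ZMod 2))
      (fun t => (s'' t : ZMod 2)) = 1) :
    ∃ L : LA n, Bdd m L ∧ ¬ SAv L := by
  classical
  obtain ⟨a, ha⟩ := exists_types s hs
  obtain ⟨b, hb⟩ := exists_types s' hs'
  obtain ⟨c, hc⟩ := exists_types s'' hs''
  refine ⟨fun i j => univ.filter fun k => c k = op (a i) (b j), ⟨?_, ?_, ?_⟩, ?_⟩
  · intro i j
    rw [hc]; exact hm'' _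
  · intro i k
    have : (univ.filter fun j => k ∈ univ.filter fun k => c k = op (a i) (b j))
        = univ.filter fun j => b j = op (a i) (c k) := by
      ext j
      simp only [mem_filter, mem_univ, true_and]
      exact op_left _ _ _
    rw [this, hb]; exact hm' _
  · intro j k
    have : (univ.filter fun i => k ∈ univ.filter fun k => c k = op (a i) (b j))
        = univ.filter fun i => a i = op (b j) (c k) := by
      ext i
      simp only [mem_filter, mem_univ, true_and]
      exact op_right _ _ _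
    rw [this, ha]; exact hm _
  · rintro ⟨g, g1, g2, g3, hav⟩
    have hinv := invariant (h := fun i j k => ((g i j k : ℤ) : ZMod 2))
      (fun i j => by rw [← Int.cast_sum, g1]; simp)
      (fun i j => by rw [← Int.cast_sum, g2]; simp)
      (fun i j => by rw [← Int.cast_sum, g3]; simp)
      (fun i => xb (a i)) (fun i => xb (b i)) (fun i => xb (c i))
      (fun i => yb (a i)) (fun i => yb (b i)) (fun i => yb (c i))
    have h0 : ∑ i, ∑ j, ∑ k, ((g i j k : ℤ) : ZMod 2) * ((1 + xb (a i) + xb (b j) + xb (c k))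
        * (1 + yb (a i) + yb (b j) + yb (c k))) = 0 := by
      apply Finset.sum_eq_zero
      intro i _
      apply Finset.sum_eq_zero
      intro j _
      apply Finset.sum_eq_zero
      intro k _
      rw [ind]
      split_ifs with h
      · rw [hav i j k (by simpa using h)]
        simp
      · simp
    rw [h0] at hinv
    have hx : ∀ {n : ℕ} {s : Fin 4 → ℕ} {a : Fin n → Fin 4}
        (_ : ∀ t, (univ.filter fun i => a i = t).card = s t),
        (∑ i, xb (a i) = (s 2 : ZMod 2) + s 3) ∧ (∑ i, yb (a i) = (s 1 : ZMod 2) + s 3)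
        ∧ (∑ i, xb (a i) * yb (a i) = (s 3 : ZMod 2)) := by
      intro n s a ha
      refine ⟨?_, ?_, ?_⟩
      · rw [sum_types ha xb]; simp [Fin.sum_univ_four, xb]
      · rw [sum_types ha yb]; simp [Fin.sum_univ_four, yb]
      · rw [sum_types ha (fun t => xb t * yb t)]; simp [Fin.sum_univ_four, xb, yb]
    obtain ⟨a1, a2, a3⟩ := hx ha
    obtain ⟨b1, b2, b3⟩ := hx hb
    obtain ⟨c1, c2, c3⟩ := hx hc
    simp only [a1, a2, a3, b1, b2, b3, c1, c2, c3] at hinv
    unfold charge at hch
    rw [hch] at hinv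
    exact zero_ne_one hinv

theorem cast_parity (k : ℕ) : (k : ZMod 2) = 0 ∨ (k : ZMod 2) = 1 := by
  generalize (k : ZMod 2) = z
  revert z
  decide

/-- For every `n ≥ 1` there is an unavoidable list assignment for `K_{n,n}` with all
multiplicities at most `⌊n/4⌋ + 1`. -/
theorem unavoidable (n : ℕ) (hn : 1 ≤ n) :
    ∃ L : LA n, Bdd (n / 4 + 1) L ∧ ¬ SAv L := by
  obtain ⟨k, r, hr, rfl⟩ : ∃ k r, r < 4 ∧ n = 4 * k + r := ⟨n / 4, n % 4, by omega, by omega⟩
  have hk : (4 * k + r) / 4 + 1 = k + 1 := by omega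
  rw [hk]
  have h2 : (2 : ZMod 2) = 0 := by decide
  have h3 : (3 : ZMod 2) = 1 := by decide
  have h4 : (4 : ZMod 2) = 0 := by decide
  have h11 : (1 : ZMod 2) + 1 = 0 := by decide
  interval_cases r
  · -- n = 4 k
    obtain ⟨l, rfl⟩ : ∃ l, k = l + 1 := ⟨k - 1, by omega⟩
    refine main ![l, l + 1, l + 2, l + 1] ![l, l + 2, l + 1, l + 1] ![l + 1, l + 1, l + 1, l + 1]
      (by simp [Fin.sum_univ_four]; ring) (by simp [Fin.sum_univ_four]; ring)
      (by simp [Fin.sum_univ_four]; ring) ?_ ?_ ?_ ?_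
    · intro t; fin_cases t <;> (try simp) <;> (try omega)
    · intro t; fin_cases t <;> (try simp) <;> (try omega)
    · intro t; fin_cases t <;> (try simp) <;> (try omega)
    · rcases cast_parity l with h | h <;> simp [charge, h, h2, h4, h11]
  · -- n = 4 k + 1
    rcases cast_parity k with h | h
    · refine main ![k + 1, k, k, k] ![k + 1, k, k, k] ![k + 1, k, k, k]
        (by simp [Fin.sum_univ_four]; ring) (by simp [Fin.sum_univ_four]; ring)
        (by simp [Fin.sum_univ_four]; ring) ?_ ?_ ?_ ?_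
      · intro t; fin_cases t <;> (try simp) <;> (try omega)
      · intro t; fin_cases t <;> (try simp) <;> (try omega)
      · intro t; fin_cases t <;> (try simp) <;> (try omega)
      · simp [charge, h, h2, h4, h11]
    · refine main ![k, k, k, k + 1] ![k + 1, k, k, k] ![k + 1, k, k, k]
        (by simp [Fin.sum_univ_four]; ring) (by simp [Fin.sum_univ_four]; ring)
        (by simp [Fin.sum_univ_four]; ring) ?_ ?_ ?_ ?_
      · intro t; fin_cases t <;> (try simp) <;> (try omega)
      · intro t; fin_cases t <;> (try simp) <;> (try omega)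
      · intro t; fin_cases t <;> (try simp) <;> (try omega)
      · simp [charge, h, h2, h4, h11]
  · -- n = 4 k + 2
    refine main ![k, k + 1, k, k + 1] ![k, k, k + 1, k + 1] ![k + 1, k, k, k + 1]
      (by simp [Fin.sum_univ_four]; ring) (by simp [Fin.sum_univ_four]; ring)
      (by simp [Fin.sum_univ_four]; ring) ?_ ?_ ?_ ?_
    · intro t; fin_cases t <;> (try simp) <;> (try omega)
    · intro t; fin_cases t <;> (try simp) <;> (try omega)
    · intro t; fin_cases t <;> (try simp) <;> (try omega)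
    · rcases cast_parity k with h | h <;> simp [charge, h, h2, h4, h11]
  · -- n = 4 k + 3
    rcases cast_parity k with h | h
    · refine main ![k + 1, k + 1, k + 1, k] ![k, k + 1, k + 1, k + 1] ![k, k + 1, k + 1, k + 1]
        (by simp [Fin.sum_univ_four]; ring) (by simp [Fin.sum_univ_four]; ring)
        (by simp [Fin.sum_univ_four]; ring) ?_ ?_ ?_ ?_
      · intro t; fin_cases t <;> (try simp) <;> (try omega)
      · intro t; fin_cases t <;> (try simp) <;> (try omega)
      · intro t; fin_cases t <;> (try simp) <;> (try omega)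
      · simp [charge, h, h2, h3, h4, h11]
    · refine main ![k, k + 1, k + 1, k + 1] ![k, k + 1, k + 1, k + 1] ![k, k + 1, k + 1, k + 1]
        (by simp [Fin.sum_univ_four]; ring) (by simp [Fin.sum_univ_four]; ring)
        (by simp [Fin.sum_univ_four]; ring) ?_ ?_ ?_ ?_
      · intro t; fin_cases t <;> (try simp) <;> (try omega)
      · intro t; fin_cases t <;> (try simp) <;> (try omega)
      · intro t; fin_cases t <;> (try simp) <;> (try omega)
      · simp [charge, h, h2, h3, h4, h11]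


end Pool.Agent.Y388.HG
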