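import Pool.Agent.Y388.HG.Neg
import Pool.Agent.Y388.HG.Frac2

/-!
The fractional threshold is at most one third.
-/

namespace Pool.Agent.Y388.HG

open Finset

theorem exists_types3 {n : ℕ} (s : Fin 3 → ℕ) (hs : ∑ t, s t = n) :
    ∃ a : Fin n → Fin 3, ∀ t, (univ.filter fun i => a i = t).card = s t := by
  classical
  have hc : Fintype.card (Fin n) = Fintype.card (Σ t : Fin 3, Fin (s t)) := by
    simp [hs]
  let e : Fin n ≃ (Σ t : Fin 3, Fin (s t)) := Fintype.equivOfCardEq hc
  refine ⟨fun i => (e i).1, fun t => ?_⟩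
  have h1 : (univ.filter fun i => (e i).1 = t).card
      = (univ.filter fun z : (Σ t : Fin 3, Fin (s t)) => z.1 = t).card := by
    apply Finset.card_bij (fun i _ => e i)
    · intro i hi; simpa using hi
    · intro i _ j _ h; exact e.injective h
    · intro z hz
      refine ⟨e.symm z, ?_, ?_⟩
      · simpa using hz
      · simp
  rw [h1]
  have h2 : (univ.filter fun z : (Σ t : Fin 3, Fin (s t)) => z.1 = t)
      = (univ : Finset (Fin (s t))).map ⟨fun x => (⟨t, x⟩ : Σ t : Fin 3, Fin (s t)),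
          fun x y h => by simpa using h⟩ := by
    ext ⟨t', x⟩
    simp only [mem_filter, mem_univ, true_and, mem_map]
    constructor
    · rintro rfl
      exact ⟨x, rfl⟩
    · rintro ⟨y, hy⟩
      exact (congrArg Sigma.fst hy).symm
  rw [h2, card_map]
  simp

theorem eq_sum {n : ℕ} {s : Fin 3 → ℕ} {a : Fin n → Fin 3}
    (ha : ∀ t, (univ.filter fun i => a i = t).card = s t) :
    ∑ i, ∑ j, (if a i = a j then (1 : ℝ) else 0) = ∑ t, (s t : ℝ) ^ 2 := by
  classical
  have h1 : ∀ i, ∑ j, (if a i = a j then (1 : ℝ) else 0) = s (a i) := by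
    intro i
    rw [← Finset.sum_filter, Finset.sum_const, nsmul_eq_mul, mul_one, ← ha]
    congr 2
    ext j
    simp [eq_comm]
  simp_rw [h1]
  rw [← Finset.sum_fiberwise (univ : Finset (Fin n)) a (fun i => (s (a i) : ℝ))]
  apply Finset.sum_congr rfl
  intro t _
  rw [Finset.sum_congr rfl (g := fun _ => (s t : ℝ))]
  · rw [Finset.sum_const, ha t, nsmul_eq_mul]
    ring
  · intro i hi
    rw [(mem_filter.mp hi).2]

theorem third_main {n m : ℕ} (s : Fin 3 → ℕ) (hs : ∑ t, s t = n) (hm : ∀ t, s t ≤ m)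
    (h3 : (n : ℝ) ^ 2 < 3 * ∑ t, (s t : ℝ) ^ 2) : ∃ L : LA n, Bdd m L ∧ ¬ FAv L := by
  classical
  obtain ⟨a, ha⟩ := exists_types3 s hs
  have hcard : ∀ t, (univ.filter fun i => a i = t).card ≤ m := fun t => by rw [ha]; exact hm t
  refine ⟨fun i j => univ.filter fun k => a i = a j ∧ a k = a i, ⟨?_, ?_, ?_⟩, ?_⟩
  · intro i j
    refine (card_le_card ?_).trans (hcard (a i))
    intro k hk
    rw [mem_filter] at hk ⊢
    exact ⟨hk.1, hk.2.2⟩
  · intro i k
    refine (card_le_card ?_).trans (hcard (a i))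
    intro j hj
    rw [mem_filter, mem_filter] at hj
    rw [mem_filter]
    exact ⟨hj.1, hj.2.2.1.symm⟩
  · intro j k
    refine (card_le_card ?_).trans (hcard (a j))
    intro i hi
    rw [mem_filter, mem_filter] at hi
    rw [mem_filter]
    exact ⟨hi.1, hi.2.2.1⟩
  · rintro ⟨g, g0, g1, g2, g3, hav⟩
    have hl := lin (R := ℝ) g1 g2 g3 (fun i j => (if a i = a j then (1 : ℝ) else 0) - 1)
      (fun i k => if a i = a k then (1 : ℝ) else 0) (fun j k => if a j = a k then (1 : ℝ) else 0)
    simp_rw [Finset.sum_sub_distrib] at hl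
    rw [eq_sum ha] at hl
    have hn : ∑ _i : Fin n, ∑ _j : Fin n, (1 : ℝ) = (n : ℝ) ^ 2 := by simp [sq]
    rw [hn] at hl
    have hle : ∑ i, ∑ j, ∑ k, g i j k * ((if a i = a j then (1 : ℝ) else 0) - 1 +
        (if a i = a k then (1 : ℝ) else 0) + (if a j = a k then (1 : ℝ) else 0)) ≤ 0 := by
      refine Finset.sum_nonpos fun i _ => Finset.sum_nonpos fun j _ =>
        Finset.sum_nonpos fun k _ => ?_
      by_cases hk : k ∈ univ.filter fun k => a i = a j ∧ a k = a i
      · rw [hav i j k hk, zero_mul]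
      · refine mul_nonpos_of_nonneg_of_nonpos (g0 i j k) ?_
        have hk' : ¬ (a i = a j ∧ a k = a i) := fun h => hk (mem_filter.2 ⟨mem_univ _, h⟩)
        by_cases h1 : a i = a j
        · by_cases h2 : a i = a k
          · exact absurd ⟨h1, h2.symm⟩ hk'
          · have h4 : ¬ a j = a k := fun h => h2 (h1.trans h)
            simp [h1, h4]
        · by_cases h2 : a i = a k
          · have h4 : ¬ a j = a k := fun h => h1 (h2.trans h.symm)
            rw [if_neg h1, if_pos h2, if_neg h4]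
            norm_num
          · by_cases h4 : a j = a k
            · simp [h1, h2, h4]
            · simp [h1, h2, h4]
    linarith

theorem third (n : ℕ) (hn : 1 ≤ n) : ∃ L : LA n, Bdd (n / 3 + 1) L ∧ ¬ FAv L := by
  obtain ⟨k, r, hr, rfl⟩ : ∃ k r, r < 3 ∧ n = 3 * k + r := ⟨n / 3, n % 3, by omega, by omega⟩
  have hk : (3 * k + r) / 3 + 1 = k + 1 := by omega
  rw [hk]
  interval_cases r
  · obtain ⟨l, rfl⟩ : ∃ l, k = l + 1 := ⟨k - 1, by omega⟩
    refine third_main ![l + 2, l + 1, l] (by simp [Fin.sum_univ_three]; ring) ?_ ?_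
    · intro t; fin_cases t <;> simp <;> omega
    · simp [Fin.sum_univ_three]
      nlinarith
  · refine third_main ![k + 1, k, k] (by simp [Fin.sum_univ_three]; ring) ?_ ?_
    · intro t; fin_cases t <;> simp
    · simp [Fin.sum_univ_three]
      nlinarith
  · refine third_main ![k + 1, k + 1, k] (by simp [Fin.sum_univ_three]; ring) ?_ ?_
    · intro t; fin_cases t <;> simp
    · simp [Fin.sum_univ_three]
      nlinarith

end Pool.Agent.Y388.HG
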